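import Pool.Agent.H5.TT.Stm

set_option autoImplicit false

namespace H9.TT

open H5.TT

theorem t_CAM : S_CAM := by
  intro E l hl hM hE
  have hg : AntitoneOn (fun x : ℝ => x * E x) (Set.Ioi 0) := by
    intro a ha b hb hab
    have ha' : (0 : ℝ) < a := ha
    have hb' : (0 : ℝ) < b := hb
    have h := hM (Set.mem_Ioi.mpr (inv_pos.mpr hb')) (Set.mem_Ioi.mpr (inv_pos.mpr ha'))
      (inv_anti₀ ha' hab)
    simp only [inv_inv] at h
    exact h
  have h1 : HasDerivAt (fun x : ℝ => x * E x) (1 * E l + l * deriv E l) l :=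
    (hasDerivAt_id l).mul hE.hasDerivAt
  have h2 := hg.derivWithin_nonpos (x := l)
  rw [derivWithin_of_isOpen isOpen_Ioi (Set.mem_Ioi.mpr hl), h1.deriv] at h2
  linarith

end H9.TT
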